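import Pool.Agent.Helper27.T5.Scale

/-!
# T5a, block FAR: sizes

`B = 1000037 ^ (W + 100)`, `W` the window of the level 1 in the era of `l'`, bounds
`X_(l'+1) / N_(l')` for the elements of the state `l'`.
-/

set_option autoImplicit false

namespace Pool.Agent.Helper97.T5

open Finset Pool.Agent.Helper5.ET Pool.Agent.Helper27.T4 Pool.Agent.Helper27.T5
open Pool.Agent.Helper30.ET

/-- bound for (elements of the state `l`) / `N_l` -/
def BB (m l : ℕ) : ℕ := 1000037 ^ (W m (era l) 1 + 100)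

theorem BB_pos (m l : ℕ) : 0 < BB m l := by unfold BB; positivity

/-- the window is small against the position -/
theorem W_small {m l : ℕ} (hb : 10 * m ≤ la (era l)) (hm : 0 < m) (h : bb (era l) ≤ l) :
    1024 * W m (era l) 1 ≤ l := by
  have h1 := W_zero_le m (era l)
  rw [W_succ hm] at h1
  have h2 := Nat.mul_le_mul_right (W m (era l) (0 + 1)) (rt_ge hb hm)
  simp only [zero_add] at h1 h2
  omega

theorem W_large {m l : ℕ} (hb : 10 * m ≤ la (era l)) (hm : 1 < m) : 1024 ≤ W m (era l) 1 :=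
  W_ge hb hm

theorem BB_log {m l : ℕ} (hb : 10 * m ≤ la (era l)) (hm : 1 < m) :
    Real.log (BB m l) ≤ 16 * (W m (era l) 1 : ℝ) := by
  have hW : (1024 : ℝ) ≤ W m (era l) 1 := by exact_mod_cast W_large hb hm
  unfold BB
  push_cast
  rw [Real.log_pow]
  have h1 : Real.log 1000037 ≤ 14 := log_base_upper.le
  have h2 : (((W m (era l) 1 + 100 : ℕ) : ℝ)) * Real.log 1000037 ≤
      ((W m (era l) 1 + 100 : ℕ) : ℝ) * 14 := by gcongr
  refine h2.trans ?_
  push_cast
  linarith

theorem BB_le_exp {m l : ℕ} (hb : 10 * m ≤ la (era l)) (hm : 1 < m) :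
    (BB m l : ℝ) ≤ Real.exp (16 * (W m (era l) 1 : ℝ)) := by
  rw [← Real.log_le_iff_le_exp (by exact_mod_cast BB_pos m l)]
  exact BB_log hb hm

/-- **(a1)** elements of the state `l'` are small against `N_l' exp (.08 (l - l'))` -/
theorem far_size {m l' l : ℕ} (hb : 10 * m ≤ la (era l')) (hm : 1 < m)
    (hD : l' + 200 * W m (era l') 1 ≤ l) :
    ((Nj l' * BB m l' : ℕ) : ℝ) ≤ Nj l' * Real.exp (8 / 100 * ((l : ℝ) - l')) := by
  push_cast
  have h1 := BB_le_exp (l := l') hb hm
  have h2 : 16 * (W m (era l') 1 : ℝ) ≤ 8 / 100 * ((l : ℝ) - l') := by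
    have : (l' : ℝ) + 200 * (W m (era l') 1 : ℝ) ≤ l := by exact_mod_cast hD
    linarith
  have h3 := Real.exp_le_exp.2 h2
  exact mul_le_mul_of_nonneg_left (h1.trans h3) (Nat.cast_nonneg _)

/-- **(a2)** the range of `n` -/
theorem range_size {m l : ℕ} (hb : 10 * m ≤ la (era l)) (hm : 1 < m) (h : bb (era l) ≤ l) :
    2 * ((Nj l * BB m l : ℕ) : ℝ) ≤ Real.exp (100 * l) := by
  have h1 := BB_le_exp (l := l) hb hm
  have h2 : (Nj l : ℝ) ≤ Real.exp (14 * l) := by
    rw [← Real.log_le_iff_le_exp (Nj_pos_real l)]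
    have h3 := log_Nj_upper l
    have h4 : (l : ℝ) * Real.log 1000037 ≤ l * 14 := by
      gcongr
      exact log_base_upper.le
    linarith
  have h5 : (2 : ℝ) ≤ Real.exp 1 := by
    have := Real.add_one_le_exp (1 : ℝ)
    linarith
  have hW : 1024 * (W m (era l) 1 : ℝ) ≤ l := by exact_mod_cast W_small hb (by omega) h
  have hl : (1 : ℝ) ≤ l := by
    have h6 := W_large (l := l) hb hm
    have h7 := W_small hb (by omega) h
    exact_mod_cast (show 1 ≤ l by omega)
  push_cast
  calc 2 * ((Nj l : ℝ) * BB m l) ≤ Real.exp 1 * (Real.exp (14 * l) *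
      Real.exp (16 * (W m (era l) 1 : ℝ))) :=
        mul_le_mul h5 (mul_le_mul h2 h1 (Nat.cast_nonneg _) (Real.exp_pos _).le)
          (mul_nonneg (Nat.cast_nonneg _) (Nat.cast_nonneg _)) (Real.exp_pos _).le
    _ = Real.exp (1 + (14 * l + 16 * (W m (era l) 1 : ℝ))) := by
      rw [Real.exp_add, Real.exp_add]
    _ ≤ _ := by
      apply Real.exp_le_exp.2
      linarith

/-- **(a3)** the one sided case: elements of `l'` are at most `N_j` with `j ≤ 41/200 l` -/
theorem one_sided_index {m l' l : ℕ} (hb : 10 * m ≤ la (era l')) (hm : 1 < m)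
    (h0 : bb (era l') ≤ l') (h : 5 * l' ≤ l) :
    200 * (l' + 2 * (W m (era l') 1 + 100)) ≤ 41 * l := by
  have h1 := W_small hb (by omega) h0
  have h2 : 2 ^ 64 ≤ l' := (bb_ge_pow (era l')).trans h0
  omega

theorem pow_le_pow_two (t : ℕ) : 1000037 ^ t ≤ 1000003 ^ (2 * t) := by
  rw [pow_mul]
  exact Nat.pow_le_pow_left (by norm_num) t

theorem one_sided_size (m l' : ℕ) :
    Nj l' * BB m l' ≤ Nj (l' + 2 * (W m (era l') 1 + 100)) := by
  unfold BB
  have h1 := Nj_lower (show l' ≤ l' + 2 * (W m (era l') 1 + 100) by omega)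
  rw [Nat.add_sub_cancel_left] at h1
  exact (Nat.mul_le_mul_left _ (pow_le_pow_two _)).trans h1

/-- upper bound of the elements of a used state -/
theorem XT_le_BB {m : ℕ} {T : ℕ → ℕ} (hT : TB m T) {l : ℕ} (h : used m l)
    (hb : 10 * m ≤ la (era l)) (hm : 1 < m) : XT T (l + 1) ≤ Nj l * BB m l := by
  have h1 := XT_same_le T (show l ≤ l + 1 by omega) (era_add_two h hb hm).1.symm
  rw [Nat.add_sub_cancel_left, pow_one] at h1
  refine h1.trans ?_
  unfold XT BB
  have h2 := hT.hi (era l)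
  calc 1000037 * (Nj l * T (era l)) ≤ 1000037 * (Nj l * (2 * (10 ^ 6) ^ (W m (era l) 1))) := by
        gcongr
    _ ≤ 1000037 * (Nj l * (1000037 * 1000037 ^ (W m (era l) 1))) := by
        gcongr <;> norm_num
    _ = Nj l * 1000037 ^ (W m (era l) 1 + 2) := by ring
    _ ≤ Nj l * 1000037 ^ (W m (era l) 1 + 100) := by
        gcongr
        · norm_num
        · norm_num

/-- far pairs of used states -/
theorem far_dist {m l' l : ℕ} (h : used m l) (h' : used m l')
    (hf : era l' < era l ∨ l' + 200 * W m (era l) 1 ≤ l) (hbl : 10 * m ≤ la (era l'))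
    (hm : 1 < m) (hle : era l' ≤ era l) : l' + 200 * W m (era l') 1 ≤ l := by
  rcases hf with hf | hf
  · have h1 := used_far h h' hf
    have h2 := lt_ef (l := l') hbl hm
    omega
  · have h3 := W_mono_one (m := m) (by omega) hle
    omega

/-- far pairs are at distance at least `10 ^ 5` -/
theorem far_dist' {m l' l : ℕ} (hb : 10 * m ≤ la (era l')) (hm : 1 < m)
    (hD : l' + 200 * W m (era l') 1 ≤ l) : l' + 10 ^ 5 ≤ l := by
  have := W_large (l := l') hb hm
  omega

end Pool.Agent.Helper97.T5
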