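import Pool.Agent.Helper29.T5.Far
import Pool.Agent.Helper29.T5.Push
import Pool.Agent.Helper53.T5.FarOne
import Pool.Agent.Helper42.T5.Pr
import Pool.Agent.Helper97.T5.FarSize

/-!
# T5a, block FAR: the two statements for the probability `PrLe` of helper42

The values of the keys are reduced modulo `M' k` (a divisor of `M k`), so the tables may have more
digits than the position.
-/

set_option autoImplicit false

namespace Pool.Agent.Helper97.T5

open Finset Pool.Agent.Helper25.T5 Pool.Agent.Helper29.T4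
open Pool.Agent.Helper5.ET hiding OmK ext PrLe
open Pool.Agent.Helper42.T5.Pr

section Red

variable {κ : Type*} [DecidableEq κ]

/-- the reduced tables are independent -/
theorem indep_red (M : κ → ℕ) (K : Finset κ) (M' : κ → ℕ) (hM' : ∀ k, 0 < M' k)
    (hd : ∀ k ∈ K, M' k ∣ M k) (hout : ∀ k ∉ K, M' k = 1) :
    Indep (Ω := {r // r ∈ OmK M K}) (fun r k => ext K r.1 k % M' k) M' := by
  classical
  intro S v
  have hcard : Fintype.card {r // r ∈ OmK M K} = ∏ k : K, M k.1 := by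
    rw [Fintype.card_coe]
    exact card_Om _
  rw [hcard]
  -- the set as a product
  have h1 : Nat.card {r : {r // r ∈ OmK M K} // ∀ k ∈ S, ext K r.1 k % M' k = v k} ≤
      (Fintype.piFinset (fun k : K => (range (M k.1)).filter
        (fun a => k.1 ∈ S → a % M' k.1 = v k.1))).card := by
    rw [Nat.card_eq_fintype_card]
    rw [← Fintype.card_coe (Fintype.piFinset _)]
    refine Fintype.card_le_of_injective (fun r => ⟨r.1.1, ?_⟩) ?_
    · rw [Fintype.mem_piFinset]
      intro k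
      rw [mem_filter, mem_range]
      refine ⟨(mem_OmK r.1.1).1 r.1.2 k, fun hk => ?_⟩
      have := r.2 k.1 hk
      rwa [ext_mem _ k.2] at this
    · intro r r' h
      have h5 : r.1.1 = r'.1.1 := congrArg (fun t => t.1) h
      exact Subtype.ext (Subtype.ext h5)
  refine (Nat.cast_le.2 h1).trans ?_
  rw [Fintype.card_piFinset]
  push_cast
  have h2 : ∀ k : K, ((((range (M k.1)).filter
      (fun a => k.1 ∈ S → a % M' k.1 = v k.1)).card : ℕ) : ℝ) ≤
      M k.1 * (if k.1 ∈ S then ((M' k.1 : ℝ))⁻¹ else 1) := by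
    intro k
    split_ifs with hk
    · have h3 : (range (M k.1)).filter (fun a => k.1 ∈ S → a % M' k.1 = v k.1) =
          (range (M k.1)).filter (fun a => a % M' k.1 = v k.1) := by
        apply filter_congr
        intro a _
        simp [hk]
      rw [h3]
      rcases Nat.lt_or_ge (v k.1) (M' k.1) with hv | hv
      · rw [Pool.Agent.Helper29.T5.card_mod (hM' k.1) (hd k.1 k.2) hv,
          Nat.cast_div (hd k.1 k.2) (by exact_mod_cast (hM' k.1).ne'), div_eq_mul_inv]
      · have h4 : (range (M k.1)).filter (fun a => a % M' k.1 = v k.1) = ∅ := by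
          rw [filter_eq_empty_iff]
          intro a _ ha
          have := Nat.mod_lt a (hM' k.1)
          omega
        rw [h4, card_empty, Nat.cast_zero]
        positivity
    · simp only [mul_one]
      refine Nat.cast_le.2 ((card_filter_le _ _).trans ?_)
      rw [card_range]
  calc (∏ k : K, (((range (M k.1)).filter
      (fun a => k.1 ∈ S → a % M' k.1 = v k.1)).card : ℝ)) ≤
        ∏ k : K, ((M k.1 : ℝ) * (if k.1 ∈ S then ((M' k.1 : ℝ))⁻¹ else 1)) :=
          prod_le_prod (fun _ _ => Nat.cast_nonneg _) (fun k _ => h2 k)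
    _ = (∏ k : K, (M k.1 : ℝ)) * ∏ k : K, (if k.1 ∈ S then ((M' k.1 : ℝ))⁻¹ else 1) :=
          prod_mul_distrib
    _ = (∏ k : K, (M k.1 : ℝ)) * ∏ k ∈ S, ((M' k : ℝ))⁻¹ := by
          congr 1
          rw [Finset.prod_coe_sort K (fun k => if k ∈ S then ((M' k : ℝ))⁻¹ else 1)]
          rw [Finset.prod_ite_mem, Finset.inter_comm]
          apply prod_subset inter_subset_left
          intro k hk hk2
          rw [hout k (fun h => hk2 (mem_inter.2 ⟨hk, h⟩)), Nat.cast_one, inv_one]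

end Red

section Res

variable {κ : Type*}

theorem res_congr {ι : Type*} [DecidableEq ι] [Fintype ι] (p : ι → ℕ) (σ : Sd ι κ) (w w' : κ → ℕ)
    (x : ι → ℕ) (h : ∀ f, w (σ.key f (Helper25.T5.mk (σ.pre f) x)) ≡
      w' (σ.key f (Helper25.T5.mk (σ.pre f) x)) [MOD p f ^ σ.a f]) (z : ℕ) :
    Res p σ w z x ↔ Res p σ w' z x := by
  unfold Res
  apply forall_congr'
  intro f
  rw [(ZMod.natCast_eq_natCast_iff _ _ _).2 (h f)]

theorem repZ_congr {ι : Type*} [DecidableEq ι] [Fintype ι] (p : ι → ℕ) (σ σ' : Sd ι κ)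
    (w w' : κ → ℕ)
    (h : ∀ f, ∀ x ∈ Xg p σ.a, w (σ.key f (Helper25.T5.mk (σ.pre f) x)) ≡
      w' (σ.key f (Helper25.T5.mk (σ.pre f) x)) [MOD p f ^ σ.a f])
    (h' : ∀ f, ∀ x ∈ Xg p σ'.a, w (σ'.key f (Helper25.T5.mk (σ'.pre f) x)) ≡
      w' (σ'.key f (Helper25.T5.mk (σ'.pre f) x)) [MOD p f ^ σ'.a f]) (L n : ℕ) :
    repZ p σ σ' L n w = repZ p σ σ' L n w' := by
  ext z
  simp only [repZ, mem_filter]
  apply and_congr_right
  intro _
  apply and_congr_right
  intro _
  constructor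
  · rintro ⟨x, hx, x', hx', h1, h2⟩
    exact ⟨x, hx, x', hx', (res_congr p σ w w' x (fun f => h f x hx) z).1 h1,
      (res_congr p σ' w w' x' (fun f => h' f x' hx') (n - z)).1 h2⟩
  · rintro ⟨x, hx, x', hx', h1, h2⟩
    exact ⟨x, hx, x', hx', (res_congr p σ w w' x (fun f => h f x hx) z).2 h1,
      (res_congr p σ' w w' x' (fun f => h' f x' hx') (n - z)).2 h2⟩

end Res

open Classical in
/-- a property of the elements of `OmK` and the same for the subtype -/
theorem card_sub {κ : Type*} [DecidableEq κ] (M : κ → ℕ) (K : Finset κ) (B : (κ → ℕ) → Prop) :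
    ((OmK M K).filter (fun r => B (ext K r))).card =
      ((univ : Finset {r // r ∈ OmK M K}).filter (fun r => B (ext K r.1))).card := by
  rw [← card_map (Function.Embedding.subtype (fun r => r ∈ OmK M K))]
  congr 1
  ext r
  simp only [mem_filter, mem_map, mem_univ, true_and, Function.Embedding.coe_subtype]
  constructor
  · rintro ⟨h1, h2⟩
    exact ⟨⟨r, h1⟩, h2, rfl⟩
  · rintro ⟨⟨s, hs⟩, h2, rfl⟩
    exact ⟨hs, h2⟩

/-- the keys of one position: `key f` at a masked admissible vector; `M` = number of values -/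
structure Lay {κ : Type*} (M : κ → ℕ) (K : Finset κ) (l : ℕ) (key : Fin 3 → (Fin 3 → ℕ) → κ) :
    Prop where
  mem : ∀ f, ∀ x ∈ Xg pr (av l), key f (Helper25.T5.mk (pre l f) x) ∈ K
  inj : ∀ f g, ∀ x ∈ Xg pr (av l), ∀ y ∈ Xg pr (av l),
    key f (Helper25.T5.mk (pre l f) x) = key g (Helper25.T5.mk (pre l g) y) →
      f = g ∧ Helper25.T5.mk (pre l f) x = Helper25.T5.mk (pre l g) y
  dvd : ∀ f, ∀ x ∈ Xg pr (av l), pr f ^ av l f ∣ M (key f (Helper25.T5.mk (pre l f) x))

/-- the side belonging to a position -/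
def sd {κ : Type*} (l : ℕ) (key : Fin 3 → (Fin 3 → ℕ) → κ) : Sd (Fin 3) κ where
  a := av l
  pre := pre l
  key := key

open Classical in
/-- the modulus of a key: `pr f ^ av l f` for the keys of the two positions, else `1` -/
noncomputable def M2 {κ : Type*} (l l' : ℕ) (key key' : Fin 3 → (Fin 3 → ℕ) → κ) (k : κ) : ℕ :=
  if h : ∃ f, ∃ x ∈ Xg pr (av l), k = key f (Helper25.T5.mk (pre l f) x) then
    pr h.choose ^ av l h.choose
  else if h : ∃ f, ∃ x ∈ Xg pr (av l'), k = key' f (Helper25.T5.mk (pre l' f) x) then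
    pr h.choose ^ av l' h.choose
  else 1

section M2

variable {κ : Type*} [DecidableEq κ] {M : κ → ℕ} {K : Finset κ} {l l' : ℕ}
  {key key' : Fin 3 → (Fin 3 → ℕ) → κ}

theorem M2_left (h : Lay M K l key) (f : Fin 3) {x : Fin 3 → ℕ} (hx : x ∈ Xg pr (av l)) :
    M2 l l' key key' (key f (Helper25.T5.mk (pre l f) x)) = pr f ^ av l f := by
  have hex : ∃ g, ∃ y ∈ Xg pr (av l), key f (Helper25.T5.mk (pre l f) x) =
      key g (Helper25.T5.mk (pre l g) y) := ⟨f, x, hx, rfl⟩
  unfold M2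
  rw [dif_pos hex]
  obtain ⟨y, hy, he⟩ := hex.choose_spec
  rw [← (h.inj f _ x hx y hy he).1]

theorem M2_right (h' : Lay M K l' key')
    (hmix : ∀ f g, ∀ x ∈ Xg pr (av l), ∀ y ∈ Xg pr (av l'),
      key f (Helper25.T5.mk (pre l f) x) ≠ key' g (Helper25.T5.mk (pre l' g) y))
    (f : Fin 3) {x : Fin 3 → ℕ} (hx : x ∈ Xg pr (av l')) :
    M2 l l' key key' (key' f (Helper25.T5.mk (pre l' f) x)) = pr f ^ av l' f := by
  have hn : ¬ ∃ g, ∃ y ∈ Xg pr (av l), key' f (Helper25.T5.mk (pre l' f) x) =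
      key g (Helper25.T5.mk (pre l g) y) := by
    rintro ⟨g, y, hy, he⟩
    exact hmix g f y hy x hx he.symm
  have hex : ∃ g, ∃ y ∈ Xg pr (av l'), key' f (Helper25.T5.mk (pre l' f) x) =
      key' g (Helper25.T5.mk (pre l' g) y) := ⟨f, x, hx, rfl⟩
  unfold M2
  rw [dif_neg hn, dif_pos hex]
  obtain ⟨y, hy, he⟩ := hex.choose_spec
  rw [← (h'.inj f _ x hx y hy he).1]

theorem M2_pos (k : κ) : 0 < M2 l l' key key' k := by
  unfold M2
  split_ifs
  · exact pow_pos (pr_prime _).pos _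
  · exact pow_pos (pr_prime _).pos _
  · exact one_pos

theorem M2_dvd (h : Lay M K l key) (h' : Lay M K l' key')
    (hmix : ∀ f g, ∀ x ∈ Xg pr (av l), ∀ y ∈ Xg pr (av l'),
      key f (Helper25.T5.mk (pre l f) x) ≠ key' g (Helper25.T5.mk (pre l' g) y)) (k : κ) :
    M2 l l' key key' k ∣ M k := by
  by_cases h1 : ∃ f, ∃ x ∈ Xg pr (av l), k = key f (Helper25.T5.mk (pre l f) x)
  · obtain ⟨f, x, hx, rfl⟩ := h1
    rw [M2_left h f hx]
    exact h.dvd f x hx
  · by_cases h2 : ∃ f, ∃ x ∈ Xg pr (av l'), k = key' f (Helper25.T5.mk (pre l' f) x)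
    · obtain ⟨f, x, hx, rfl⟩ := h2
      rw [M2_right h' hmix f hx]
      exact h'.dvd f x hx
    · unfold M2
      rw [dif_neg h1, dif_neg h2]
      exact one_dvd _

theorem M2_out (h : Lay M K l key) (h' : Lay M K l' key') (k : κ) (hk : k ∉ K) :
    M2 l l' key key' k = 1 := by
  unfold M2
  rw [dif_neg, dif_neg]
  · rintro ⟨f, x, hx, rfl⟩
    exact hk (h'.mem f x hx)
  · rintro ⟨f, x, hx, rfl⟩
    exact hk (h.mem f x hx)

end M2

/-- **FAR2** in the form `PrLe` -/
theorem far2_pr : ∃ l0 : ℕ, ∀ l l' : ℕ, l0 ≤ l → l ≤ 5 * l' → l' ≤ l → 20000 ≤ l - l' →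
    ∀ {κ : Type} [DecidableEq κ] (M : κ → ℕ) (K : Finset κ)
    (key key' : Fin 3 → (Fin 3 → ℕ) → κ) (_ : Lay M K l key) (_ : Lay M K l' key')
    (_ : ∀ f g, ∀ x ∈ Xg pr (av l), ∀ y ∈ Xg pr (av l'),
      key f (Helper25.T5.mk (pre l f) x) ≠ key' g (Helper25.T5.mk (pre l' g) y))
    (L N m : ℕ) (_ : (L : ℝ) ≤ Nj l' * Real.exp (8 / 100 * ((l : ℝ) - l')))
    (_ : (N : ℝ) ≤ Real.exp (100 * l)) (_ : 10 ^ 8 * l ≤ m * (l - l')),
    PrLe M K (fun w => ∃ n < N, (m + 1) ^ 64 ≤ (repZ pr (sd l key) (sd l' key') L n w).card)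
      (Real.exp (-(l : ℝ))) := by
  classical
  obtain ⟨l0, hmain⟩ := Pool.Agent.Helper29.T5.far2
  refine ⟨l0, ?_⟩
  intro l l' hl h5 hll hD κ _ M K key key' hL hL' hmix L N m h1 h2 h3
  set M' : κ → ℕ := M2 l l' key key' with hM'
  have hI := indep_red M K M' M2_pos (fun k _ => M2_dvd hL hL' hmix k) (M2_out hL hL')
  have hT : Table pr (sd l key) (sd l' key') (fun (r : {r // r ∈ OmK M K}) k =>
      ext K r.1 k % M' k) M' := by
    refine ⟨hI, fun f x hx => M2_left hL f hx, fun f x hx => M2_right hL' hmix f hx, ?_, ?_⟩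
    · intro r f x hx
      have e : M' (key f (Helper25.T5.mk (pre l f) x)) = pr f ^ av l f := M2_left hL f hx
      show ext K r.1 _ % M' (key f (Helper25.T5.mk (pre l f) x)) < pr f ^ av l f
      rw [← e]
      exact Nat.mod_lt _ (M2_pos _)
    · intro r f x hx
      have e : M' (key' f (Helper25.T5.mk (pre l' f) x)) = pr f ^ av l' f := M2_right hL' hmix f hx
      show ext K r.1 _ % M' (key' f (Helper25.T5.mk (pre l' f) x)) < pr f ^ av l' f
      rw [← e]
      exact Nat.mod_lt _ (M2_pos _)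
  have hKI : KInj pr (sd l key) (sd l' key') := by
    refine ⟨?_, ?_, hmix⟩
    · intro f g x hx y hy h
      obtain ⟨rfl, e⟩ := hL.inj f g x hx y hy h
      exact ⟨rfl, e⟩
    · intro f g x hx y hy h
      obtain ⟨rfl, e⟩ := hL'.inj f g x hx y hy h
      exact ⟨rfl, e⟩
  have h4 := hmain l l' hl h5 hll hD (sd l key) (sd l' key') rfl rfl rfl rfl hKI hT L N m h1 h2 h3
  have hcs := card_sub M K
    (fun w => ∃ n < N, (m + 1) ^ 64 ≤ (repZ pr (sd l key) (sd l' key') L n w).card)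
  unfold PrLe
  rw [mul_comm]
  refine le_trans (le_of_eq ?_) (h4.trans (le_of_eq ?_))
  rotate_left
  · rw [Fintype.card_coe]
  rw [hcs]
  refine congrArg (fun s : Finset {r // r ∈ OmK M K} => ((s.card : ℕ) : ℝ)) ?_
  ext r
  simp only [mem_filter, mem_univ, true_and]
  have hc : ∀ n, repZ pr (sd l key) (sd l' key') L n (fun k => ext K r.1 k % M' k) =
      repZ pr (sd l key) (sd l' key') L n (ext K r.1) := by
    intro n
    apply repZ_congr
    · intro f x hx
      have e : M' (key f (Helper25.T5.mk (pre l f) x)) = pr f ^ av l f := M2_left hL f hx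
      show ext K r.1 _ % M' (key f (Helper25.T5.mk (pre l f) x)) ≡ _ [MOD pr f ^ av l f]
      rw [e]
      exact Nat.mod_modEq _ _
    · intro f x hx
      have e : M' (key' f (Helper25.T5.mk (pre l' f) x)) = pr f ^ av l' f := M2_right hL' hmix f hx
      show ext K r.1 _ % M' (key' f (Helper25.T5.mk (pre l' f) x)) ≡ _ [MOD pr f ^ av l' f]
      rw [e]
      exact Nat.mod_modEq _ _
  simp only [hc]

open Classical in
/-- **FAR1** in the form `PrLe` -/
theorem far1_pr : ∃ l0 : ℕ, ∀ l ≥ l0, ∀ j : ℕ, 200 * j ≤ 41 * l →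
    ∀ {κ : Type} [DecidableEq κ] (M : κ → ℕ) (K : Finset κ)
    (key : Fin 3 → (Fin 3 → ℕ) → κ) (_ : Lay M K l key)
    (Y0 : ℕ) (_ : (Y0 : ℝ) ≤ Real.exp (100 * l)),
    PrLe M K (fun w => ∃ y0 < Y0, 20000 < ((Finset.Ico y0 (y0 + Nj j)).filter
      (fun z => ∃ x ∈ Xg pr (av l), Res pr (sd l key) w z x)).card) (Real.exp (-(l : ℝ))) := by
  classical
  obtain ⟨l0, hmain⟩ := Pool.Agent.Helper53.T5.far1
  refine ⟨l0, ?_⟩
  intro l hl j hj κ _ M K key hL Y0 hY
  set M' : κ → ℕ := M2 l l key key with hM'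
  have hdvd : ∀ k, M' k ∣ M k := by
    intro k
    by_cases h1 : ∃ f, ∃ x ∈ Xg pr (av l), k = key f (Helper25.T5.mk (pre l f) x)
    · obtain ⟨f, x, hx, rfl⟩ := h1
      rw [hM', M2_left hL f hx]
      exact hL.dvd f x hx
    · rw [hM']
      unfold M2
      rw [dif_neg h1, dif_neg h1]
      exact one_dvd _
  have hI := indep_red M K M' M2_pos (fun k _ => hdvd k) (M2_out hL hL)
  have h4 := hmain l hl j hj hI (sd l key) rfl rfl hL.inj (fun f x hx => M2_left hL f hx)
    (fun r f x hx => by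
      have e : M' (key f (Helper25.T5.mk (pre l f) x)) = pr f ^ av l f := M2_left hL f hx
      show ext K r.1 _ % M' (key f (Helper25.T5.mk (pre l f) x)) < pr f ^ av l f
      rw [← e]
      exact Nat.mod_lt _ (M2_pos _)) Y0 hY
  have hcs := card_sub M K (fun w => ∃ y0 < Y0, 20000 < ((Finset.Ico y0 (y0 + Nj j)).filter
      (fun z => ∃ x ∈ Xg pr (av l), Res pr (sd l key) w z x)).card)
  unfold PrLe
  rw [mul_comm]
  refine le_trans (le_of_eq ?_) (h4.trans (le_of_eq ?_))
  rotate_left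
  · rw [Fintype.card_coe]
  rw [hcs]
  refine congrArg (fun s : Finset {r // r ∈ OmK M K} => ((s.card : ℕ) : ℝ)) ?_
  ext r
  simp only [mem_filter, mem_univ, true_and]
  have hc : ∀ z, ∀ x ∈ Xg pr (av l), (Res pr (sd l key) (fun k => ext K r.1 k % M' k) z x ↔
      Res pr (sd l key) (ext K r.1) z x) := by
    intro z x hx
    apply res_congr
    intro f
    have e : M' (key f (Helper25.T5.mk (pre l f) x)) = pr f ^ av l f := M2_left hL f hx
    show ext K r.1 _ % M' (key f (Helper25.T5.mk (pre l f) x)) ≡ _ [MOD pr f ^ av l f]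
    rw [e]
    exact Nat.mod_modEq _ _
  have hc2 : ∀ y0, (Finset.Ico y0 (y0 + Nj j)).filter
      (fun z => ∃ x ∈ Xg pr (av l), Res pr (sd l key) (fun k => ext K r.1 k % M' k) z x) =
      (Finset.Ico y0 (y0 + Nj j)).filter
        (fun z => ∃ x ∈ Xg pr (av l), Res pr (sd l key) (ext K r.1) z x) := by
    intro y0
    apply filter_congr
    intro z _
    constructor
    · rintro ⟨x, hx, h⟩
      exact ⟨x, hx, (hc z x hx).1 h⟩
    · rintro ⟨x, hx, h⟩
      exact ⟨x, hx, (hc z x hx).2 h⟩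
  simp only [hc2]

end Pool.Agent.Helper97.T5
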