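import Pool.Agent.Helper97.T5.FarInst
import Pool.Agent.Helper7.T5.FarNum

/-!
# T5a, block FAR: the statements of helper5
-/

set_option autoImplicit false

namespace Pool.Agent.Helper97.T5

open Finset Pool.Agent.Helper27.T5 Pool.Agent.Helper11.T5
open Pool.Agent.Helper42.T5.Pr
open Pool.Agent.Helper5.ET (era bb Nj)

/-- late positions are in late eras -/
theorem era_large {j0 l : ℕ} (hl : bb (j0 + 1) ≤ l) : bb 0 ≤ l ∧ j0 ≤ era l := by
  have h0 : bb 0 ≤ l := (Pool.Agent.Helper27.T4.bb_strictMono.monotone (Nat.zero_le _)).trans hl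
  refine ⟨h0, ?_⟩
  by_contra hlt
  have h1 := (Pool.Agent.Helper27.T4.era_spec l h0).2
  have h2 : bb (era l + 1) ≤ bb (j0 + 1) :=
    Pool.Agent.Helper27.T4.bb_strictMono.monotone (by omega)
  omega

theorem exists_big (k : ℕ) : ∃ K0 : ℕ, ∀ l, K0 ≤ l → Big (k + 2) k l := by
  obtain ⟨j0, h0⟩ := exists_large (k + 2)
  obtain ⟨j1, h1⟩ := exists_AA_range (k + 2) k le_rfl
  refine ⟨bb (max j0 j1 + 1), fun l hl => ?_⟩
  obtain ⟨h2, h3⟩ := era_large hl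
  exact ⟨h0 _ ((le_max_left _ _).trans h3), h2, h1 l ((le_max_right _ _).trans h3)⟩

/-- **FAR**, two pairs of parameters, general numbers of values -/
theorem farStmt2 : ∃ E k0 : ℕ, ∃ K0 : ℕ → ℕ, ∃ C1 : ℕ → ℝ, (∀ k, 0 ≤ C1 k) ∧
    ∀ k' k, k0 ≤ k' → k' ≤ k → ∀ l l', K0 k' ≤ l' → K0 k ≤ l → l' ≤ l →
    used (k + 2) l → used (k' + 2) l' → 200 * W (k + 2) (era l) 1 ≤ l - l' →
    ∀ M : Key → ℕ, (∀ q ∈ keysOf (k + 2) k l, M q = Mk (k + 2) q) →
    (∀ q ∈ keysOf (k' + 2) k' l', M q = Mk (k' + 2) q) →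
    ∀ K : Finset Key, keysOf (k + 2) k l ⊆ K → keysOf (k' + 2) k' l' ⊆ K →
    PrLe M K (fun w => ∃ n, C1 k * (l : ℝ) ^ ((E : ℝ) / ((k + 2 : ℕ) : ℝ)) <
      ((((AA (k + 2) k l w) ×ˢ (AA (k' + 2) k' l' w)).filter
        (fun q => q.1 + q.2 = n)).card : ℝ)) (Real.exp (-(l : ℝ))) := by
  obtain ⟨l0, hfar⟩ := far_pair
  choose K1 hK1 using exists_big
  have hnum := fun k : ℕ => Pool.Agent.Helper7.T5.far_num (m := k + 2) (by omega)
  choose C hC hnum using hnum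
  refine ⟨64, 0, fun k => max (l0 + 1) (K1 k), fun k => 20000 + C k, fun k => ?_, ?_⟩
  · have := hC k
    positivity
  intro k' k _ hkk l l' hl' hl hll hu hu' hD M hM hM' K hK hK'
  have hB := hK1 k l ((le_max_right _ _).trans hl)
  have hB' := hK1 k' l' ((le_max_right _ _).trans hl')
  have h1 := hfar (k + 2) k (k' + 2) k' l l' (by omega) (by omega) (by omega) hB hB'
    ((Nat.le_succ _).trans ((le_max_left _ _).trans hl)) hu hu' hll hD M hM hM' K hK hK'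
  refine PrLe_mono (fun r _ hw => ?_) le_rfl h1
  obtain ⟨n, hn⟩ := hw
  refine ⟨n, ?_⟩
  have h2 := hnum k l (l - l') hB.2.1 hu hD
  have hl1 : (1 : ℝ) ≤ (l : ℝ) := by
    have : l0 + 1 ≤ l := (le_max_left _ _).trans hl
    exact_mod_cast (show 1 ≤ l by omega)
  have h3 : (1 : ℝ) ≤ (l : ℝ) ^ ((64 : ℝ) / ((k + 2 : ℕ) : ℝ)) :=
    Real.one_le_rpow hl1 (by positivity)
  have h4 : ((20000 + (10 ^ 8 * l / (l - l') + 2) ^ 64 : ℕ) : ℝ) <
      (Rq (k + 2) k (k' + 2) k' l l' (ext K r) n : ℝ) := by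
    refine lt_of_le_of_lt ?_ hn
    rw [Nat.cast_add, Nat.cast_pow, Nat.cast_ofNat, Nat.cast_ofNat]
    have h5 : (20000 : ℝ) * 1 ≤ 20000 * (l : ℝ) ^ ((64 : ℝ) / ((k + 2 : ℕ) : ℝ)) := by
      gcongr
    have h6 := add_le_add h5 h2
    rw [mul_one] at h6
    refine h6.trans (le_of_eq ?_)
    ring
  exact_mod_cast h4

/-- **FAR**: the statement of helper5 -/
theorem farStmt : Pool.Agent.Helper5.T5.FarStmt := by
  obtain ⟨E, k0, K0, C1, hC1, h⟩ := farStmt2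
  refine ⟨E, k0, fun k hk => ⟨K0 k, C1 k, 1, 1, hC1 k, one_pos, zero_le_one, ?_⟩⟩
  intro l l' hl' hll hu hu' hD K hK hK'
  rw [one_mul, Real.rpow_one]
  exact h k k hk le_rfl l l' hl' (hl'.trans hll) hll hu hu' hD (Mk (k + 2)) (fun _ _ => rfl)
    (fun _ _ => rfl) K hK hK'

end Pool.Agent.Helper97.T5
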