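import Pool.Agent.Helper11.T5.Facts
import Pool.Agent.Helper5.T5.Pair

/-!
# T5a: the elements of the state `l` lie in `[XA l, XA (l + 1))`
-/

set_option autoImplicit false

namespace Pool.Agent.Helper97.T5

open Finset Pool.Agent.Helper27.T4 Pool.Agent.Helper27.T5
open Pool.Agent.Helper5.ET (Nj era bb pr pr_prime pr_inj)
open Pool.Agent.Helper42.T5.Pr Pool.Agent.Helper11.T5 Pool.Agent.Helper30.T5
open Pool.Agent.Helper22.HW Pool.Agent.Helper57.T5 Pool.Agent.Helper39.T5 Pool.Agent.Helper50.T5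

theorem le_AA {m k l : ℕ} {w : Key → ℕ} {z : ℕ} (hz : z ∈ AA m k l w) : XA m k l ≤ z := by
  unfold AA scaleSet at hz
  rw [mem_image] at hz
  obtain ⟨⟨⟨x, y⟩, u⟩, hq, rfl⟩ := hz
  rw [mem_product, mem_product, mem_image] at hq
  obtain ⟨_, v, hv, hu⟩ := hq
  simp only at hu
  subst hu
  unfold Vw VW at hv
  rw [mem_filter, mem_Ico] at hv
  have h1 : Nj l * LA m k (era l) * vlo m k (era l) ≤ Nj l * LA m k (era l) * v :=
    Nat.mul_le_mul_left _ hv.1.1
  have h2 : XA m k l = Nj l * LA m k (era l) * vlo m k (era l) := by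
    unfold XA XT TA
    ring
  rw [h2]
  exact h1.trans (Nat.le_add_left _ _)

theorem QQ_pos (m j t : ℕ) : 0 < QQ m j t := Qs_pos _ _ _

/-- the size of one more static level beats the distance of the fronts -/
theorem exists_front_size (m k : ℕ) (hk : k + 2 ≤ m) : ∃ j0 : ℕ, ∀ l, j0 ≤ era l → ∀ t < k,
    2 * (FF m l t * LL (QQ m (era l)) t) ≤ FF m l (t + 1) * LL (QQ m (era l)) (t + 1) := by
  obtain ⟨j0, h0⟩ := exists_pr_pow_le_Qf m k hk
  obtain ⟨j1, h1⟩ := exists_large m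
  refine ⟨max j0 j1, fun l hl t ht => ?_⟩
  have hb : 10 * m ≤ la (era l) := h1 _ (le_trans (le_max_right _ _) hl)
  have hr : 8 ≤ rt m (era l) := (by norm_num : 8 ≤ 2 ^ 10).trans (rt_ge hb (by omega))
  have hd := ef_sub_le (l := l) hb (show t + 1 < m by omega)
  have hle := lt_ef (l := l) hb (show t + 2 < m by omega)
  have hanti := ef_anti (l := l) hb (show t + 1 ≤ t + 2 by omega) (by omega)
  have hW : W m (era l) (t + 1) = rt m (era l) * W m (era l) (t + 1 + 1) :=
    Pool.Agent.Helper27.T5.W_succ (show t + 1 < m by omega)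
  have hW2 := Nat.mul_le_mul_right (W m (era l) (t + 1 + 1)) (rt_ge hb (by omega : 0 < m))
  rw [← hW] at hW2
  have hW3 := W_ge (i := t + 1) hb (by omega)
  have hdg := eight_mul_dg (m := m) (j := era l) (i := t + 2) (by omega) hr 0
  have hgw : gw 0 = 3 := rfl
  rw [hgw, show t + 2 - 1 = t + 1 by omega] at hdg
  set d := ef m (t + 1) l - ef m (t + 2) l with hdd
  have hQ := h0 (era l) (le_trans (le_max_left _ _) hl) (t + 2) (by omega) (by omega) 0 2 (d + 1)
    (by
      have e1 : t + 1 + 1 = t + 2 := by omega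
      rw [e1] at hW2 hW
      omega)
  have hQs : Qf m (era l) (t + 2) 0 ≤ QQ m (era l) t := by
    unfold QQ Qs
    exact Finset.single_le_prod' (f := fun f => Qf m (era l) (t + 2) f)
      (fun f _ => Qf_pos _ _ _ _) (mem_univ 0)
  have hN := Pool.Agent.Helper30.ET.Nj_upper hanti
  have hpr : pr 2 = 1000037 := rfl
  rw [hpr] at hQ
  have hF : FF m l t ≤ FF m l (t + 1) * 1000037 ^ d := hN
  rw [LL_succ]
  calc 2 * (FF m l t * LL (QQ m (era l)) t)
      ≤ 1000037 * ((FF m l (t + 1) * 1000037 ^ d) * LL (QQ m (era l)) t) := by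
        gcongr
        norm_num
    _ = FF m l (t + 1) * (LL (QQ m (era l)) t * 1000037 ^ (d + 1)) := by ring
    _ ≤ FF m l (t + 1) * (LL (QQ m (era l)) t * QQ m (era l) t) := by
        gcongr
        exact hQ.trans hQs

/-- the sum of the codes -/
theorem exists_code_sum_lt (m k : ℕ) (hk : k + 2 ≤ m) : ∃ j0 : ℕ, ∀ l, j0 ≤ era l →
    ∀ (w : Key → ℕ) (x : Fin 3 → ℕ) (y : Fin k → Fin 3 → ℕ),
    c1 m l w x + ∑ t : Fin k, cs m l t w (y t) < 2 * (FF m l k * LA m k (era l)) := by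
  obtain ⟨j0, h0⟩ := exists_front_size m k hk
  refine ⟨j0, fun l hl w x y => ?_⟩
  refine tower_size (fun t => FF m l t * LL (QQ m (era l)) t) (c1 m l w x) ?_ k (h0 l hl)
    (fun t => cs m l t w (y t)) (fun t => cs_lt m l t w (y t))
  show c1 m l w x < FF m l 0 * LL (QQ m (era l)) 0
  rw [LL_zero, mul_one]
  exact c1_lt m l w x

/-- **the range of the elements** -/
theorem exists_AA_range (m k : ℕ) (hk : k + 2 ≤ m) : ∃ j0 : ℕ, ∀ l, j0 ≤ era l →
    ∀ (w : Key → ℕ), ∀ z ∈ AA m k l w, XA m k l ≤ z ∧ z < XA m k (l + 1) := by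
  obtain ⟨j0, h0⟩ := exists_code_sum_lt m k hk
  refine ⟨j0, fun l hl w z hz => ⟨le_AA hz, ?_⟩⟩
  unfold AA scaleSet at hz
  rw [mem_image] at hz
  obtain ⟨⟨⟨x, y⟩, u⟩, hq, rfl⟩ := hz
  rw [mem_product, mem_product, mem_image] at hq
  obtain ⟨_, v, hv, hu⟩ := hq
  simp only at hu
  subst hu
  have h1 := h0 l hl w x y
  unfold Vw VW at hv
  rw [mem_filter, mem_Ico] at hv
  have h2 : v + 1 ≤ vhi m k l := hv.1.2
  have hpos : 0 < Nj l * LA m k (era l) := Nat.mul_pos (Nj_pos1 l) (LA_pos _ _ _)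
  have h3 : (v + 1) * (Nj l * LA m k (era l)) ≤
      XA m k (l + 1) - 2 * (FF m l k * LA m k (era l)) := by
    unfold vhi at h2
    exact (Nat.le_div_iff_mul_le hpos).1 h2
  have h4 : (v + 1) * (Nj l * LA m k (era l)) =
      Nj l * LA m k (era l) * v + Nj l * LA m k (era l) := by ring
  show (c1 m l w x + ∑ t : Fin k, cs m l t w (y t)) + Nj l * LA m k (era l) * v < _
  omega

/-- the statement RANGE of helper5 -/
theorem rangeStmt (k : ℕ) : Pool.Agent.Helper5.T5.RangeStmt k := by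
  obtain ⟨j0, h0⟩ := exists_AA_range (k + 2) k le_rfl
  refine ⟨bb (j0 + 1), fun l hl _ w _ a ha => ?_⟩
  refine h0 l ?_ w a ha
  by_contra hlt
  have h1 := (Pool.Agent.Helper27.T4.era_spec l
    ((Pool.Agent.Helper27.T4.bb_strictMono.monotone (Nat.zero_le _)).trans hl)).2
  have h2 : bb (era l + 1) ≤ bb (j0 + 1) :=
    Pool.Agent.Helper27.T4.bb_strictMono.monotone (by omega)
  omega

end Pool.Agent.Helper97.T5
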