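import Pool.Agent.Helper5.T5.Top
import Pool.Agent.Helper97.T5.Range
import Pool.Agent.Helper97.T5.FarPr

/-!
# T5a, block FAR: the instance for the sets `AA m k l w`
-/

set_option autoImplicit false

namespace Pool.Agent.Helper97.T5

open Finset Pool.Agent.Helper27.T4 Pool.Agent.Helper27.T5
open Pool.Agent.Helper5.ET (Nj era bb pr av cnt pre pr_prime pr_inj pr_ne_two)
open Pool.Agent.Helper25.T5
open Pool.Agent.Helper42.T5.Pr Pool.Agent.Helper11.T5
open Pool.Agent.Helper22.HW Pool.Agent.Helper57.T5 Pool.Agent.Helper39.T5 Pool.Agent.Helper30.ET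

/-! ## the keys -/

theorem X1_sub (l : ℕ) : X1 l ⊆ Xg pr (av l) := by
  intro x hx
  unfold X1 TT at hx
  unfold Xg
  rw [Fintype.mem_piFinset] at hx ⊢
  intro f
  exact mem_insert_of_mem (hx f)

theorem Xg_le {l : ℕ} {x : Fin 3 → ℕ} (hx : x ∈ Xg pr (av l)) (g : Fin 3) : x g ≤ Nj l := by
  unfold Xg at hx
  rw [Fintype.mem_piFinset] at hx
  have h1 := hx g
  unfold Ug at h1
  rw [mem_insert, mem_filter, mem_range] at h1
  rcases h1 with h1 | h1
  · rw [h1]
    exact Nj_pos1 l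
  · exact h1.1.le.trans (fam_pow_le_Nj g l)

theorem le_ef {m i l : ℕ} (hb : 10 * m ≤ la (era l)) (hi : i < m) : l ≤ ef m i l :=
  (lt_ef hb hi).le

theorem av_le_ef {m i l : ℕ} (hb : 10 * m ≤ la (era l)) (hi : i < m) (f : Fin 3) :
    av l f ≤ av (ef m i l) f := by
  unfold av cnt
  apply card_le_card
  apply filter_subset_filter
  intro y hy
  rw [mem_range] at hy ⊢
  exact hy.trans_le (le_ef hb hi)

theorem key_mem (m k : ℕ) {l : ℕ} (f : Fin 3) {x : Fin 3 → ℕ} (hx : x ∈ Xg pr (av l)) :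
    hkey l 1 f (Helper25.T5.mk (pre l f) x) ∈ keysOf m k l := by
  unfold keysOf hkey
  simp only [mem_product, mem_singleton, mem_range, Fintype.mem_piFinset, true_and]
  refine ⟨by omega, by have := f.2; omega, ?_⟩
  intro g
  unfold Helper25.T5.mk Bd
  have h1 := Xg_le hx g
  split_ifs
  · omega
  · omega

theorem lay_real {m k l : ℕ} (hb : 10 * m ≤ la (era l)) (hm : 1 < m) {M : Key → ℕ}
    (hM : ∀ q ∈ keysOf m k l, M q = Mk m q) {K : Finset Key}
    (hK : keysOf m k l ⊆ K) : Lay M K l (hkey l 1) := by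
  refine ⟨?_, ?_, ?_⟩
  · intro f x hx
    exact hK (key_mem m k f hx)
  · intro f g x _ y _ h
    unfold hkey at h
    simp only [Prod.mk.injEq, true_and] at h
    exact ⟨Fin.ext h.1, h.2⟩
  · intro f x hx
    rw [hM _ (key_mem m k f hx), Mk_main]
    exact pow_dvd_pow _ (av_le_ef hb hm f)

theorem key_ne {l l' : ℕ} (h : l ≠ l') (f g : Fin 3) (x y : Fin 3 → ℕ) :
    hkey l 1 f x ≠ hkey l' 1 g y := by
  intro he
  unfold hkey at he
  simp only [Prod.mk.injEq] at he
  exact h he.1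

/-! ## the residues of an element -/

theorem c1_res {m l : ℕ} (hb : 10 * m ≤ la (era l)) (hm : 1 < m) (w : Key → ℕ) {x : Fin 3 → ℕ}
    (hx : x ∈ X1 l) (f : Fin 3) : ((c1 m l w x : ℕ) : ZMod (pr f ^ av l f)) =
      Lg (pr f) (av l f) (x f) +
        ((w (hkey l 1 f (Helper25.T5.mk (pre l f) x)) : ℕ) : ZMod (pr f ^ av l f)) := by
  have h1 := cv_cast_comp pr_prime pr_inj (av (ef m 1 l)) (cmp1 m l w x) f
  have h2 := congrArg (ZMod.castHom (pow_dvd_pow (pr f) (av_le_ef hb hm f))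
    (ZMod (pr f ^ av l f))) h1
  have hco : (x f).Coprime (pr f) := by
    unfold X1 TT at hx
    rw [Fintype.mem_piFinset] at hx
    exact (mem_T1.1 (hx f)).2.1
  rw [map_natCast] at h2
  unfold c1
  rw [h2]
  unfold cmp1
  rw [map_add, map_natCast, Lg_red (pr_prime f) (pr_ne_two f) _ _ _ hco (av_le_ef hb hm f)]
  rfl

theorem Nj_dvd_ef {m i l : ℕ} (hb : 10 * m ≤ la (era l)) (hi : i < m) : Nj l ∣ Nj (ef m i l) := by
  unfold Nj
  exact NN_dvd pr (fun f => av_le_ef hb hi f)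

theorem Nj_dvd_cs {m l t : ℕ} (hb : 10 * m ≤ la (era l)) (ht : t + 2 < m) (w : Key → ℕ)
    (y : Fin 3 → ℕ) : Nj l ∣ cs m l t w y := by
  unfold cs Side.cd lc Pool.Agent.Helper22.HW.fc
  apply Dvd.dvd.mul_right
  show Nj l ∣ FF m l (t + 1) * LL (QQ m (era l)) t
  apply Dvd.dvd.mul_right
  exact Nj_dvd_ef hb ht

theorem pow_dvd_Nj (l : ℕ) (f : Fin 3) : pr f ^ av l f ∣ Nj l := fam_pow_dvd_Nj f l

/-- **(b)** every element has the residues of an admissible triple -/
theorem AA_res {m k l : ℕ} (hb : 10 * m ≤ la (era l)) (hk : k + 1 < m) {w : Key → ℕ} {z : ℕ}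
    (hz : z ∈ AA m k l w) : ∃ x ∈ Xg pr (av l), Res pr (sd l (hkey l 1)) w z x := by
  unfold AA scaleSet at hz
  rw [mem_image] at hz
  obtain ⟨⟨⟨x, y⟩, u⟩, hq, rfl⟩ := hz
  rw [mem_product, mem_product, mem_image] at hq
  obtain ⟨⟨hx, _⟩, v, _, hu⟩ := hq
  simp only at hx hu
  subst hu
  refine ⟨x, X1_sub l hx, ?_⟩
  intro f
  show (((c1 m l w x + ∑ t : Fin k, cs m l t w (y t)) + Nj l * LA m k (era l) * v : ℕ) :
    ZMod (pr f ^ av l f)) = _
  have hcs : (((∑ t : Fin k, cs m l t w (y t) : ℕ)) : ZMod (pr f ^ av l f)) = 0 := by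
    rw [ZMod.natCast_eq_zero_iff]
    apply dvd_sum
    intro t _
    exact (pow_dvd_Nj l f).trans (Nj_dvd_cs hb (by have := t.2; omega) w _)
  have hv : (((Nj l * LA m k (era l) * v : ℕ)) : ZMod (pr f ^ av l f)) = 0 := by
    rw [ZMod.natCast_eq_zero_iff, mul_assoc]
    exact (pow_dvd_Nj l f).mul_right _
  rw [Nat.cast_add, Nat.cast_add, hcs, hv, add_zero, add_zero]
  exact c1_res hb (by omega) w hx f

/-- number of representations with two pairs of parameters -/
noncomputable def Rq (m k m' k' l l' : ℕ) (w : Key → ℕ) (n : ℕ) : ℕ :=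
  ((AA m k l w ×ˢ AA m' k' l' w).filter (fun q => q.1 + q.2 = n)).card

/-- pairs are counted by `repZ` -/
theorem Rq_le_repZ {m k m' k' l l' : ℕ} (hb : 10 * m ≤ la (era l)) (hb' : 10 * m' ≤ la (era l'))
    (hk : k + 1 < m) (hk' : k' + 1 < m') {w : Key → ℕ} {L : ℕ}
    (hL : ∀ z ∈ AA m' k' l' w, z < L) (n : ℕ) :
    Rq m k m' k' l l' w n ≤ (repZ pr (sd l (hkey l 1)) (sd l' (hkey l' 1)) L n w).card := by
  unfold Rq
  refine card_le_card_of_injOn (fun q => q.1) ?_ ?_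
  · intro q hq
    rw [mem_coe, mem_filter, mem_product] at hq
    obtain ⟨⟨h1, h2⟩, h3⟩ := hq
    simp only [repZ, coe_filter, Set.mem_ofPred_eq, mem_range]
    obtain ⟨x, hx, hr⟩ := AA_res hb hk h1
    obtain ⟨x', hx', hr'⟩ := AA_res hb' hk' h2
    have h4 := hL _ h2
    refine ⟨by omega, by omega, x, hx, x', hx', hr, ?_⟩
    have h5 : n - q.1 = q.2 := by omega
    rw [h5]
    exact hr'
  · intro q hq q' hq' h
    rw [mem_coe, mem_filter] at hq hq'
    have h1 := hq.2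
    have h2 := hq'.2
    have h3 : q.1 = q'.1 := h
    exact Prod.ext h3 (by omega)

open Classical in
/-- pairs are counted by a window of the residues of the state `l` -/
theorem Rq_le_win {m k m' k' l l' : ℕ} (hb : 10 * m ≤ la (era l))
    (hk : k + 1 < m) {w : Key → ℕ} {L : ℕ} (hL : ∀ z ∈ AA m' k' l' w, z < L) (n : ℕ) :
    Rq m k m' k' l l' w n ≤ ((Finset.Ico (n + 1 - L) (n + 1 - L + L)).filter
      (fun z => ∃ x ∈ Xg pr (av l), Res pr (sd l (hkey l 1)) w z x)).card := by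
  unfold Rq
  refine card_le_card_of_injOn (fun q => q.1) ?_ ?_
  · intro q hq
    rw [mem_coe, mem_filter, mem_product] at hq
    obtain ⟨⟨h1, h2⟩, h3⟩ := hq
    simp only [coe_filter, Set.mem_ofPred_eq, mem_Ico]
    have h4 := hL _ h2
    exact ⟨⟨by omega, by omega⟩, AA_res hb hk h1⟩
  · intro q hq q' hq' h
    rw [mem_coe, mem_filter] at hq hq'
    have h1 := hq.2
    have h2 := hq'.2
    have h3 : q.1 = q'.1 := h
    exact Prod.ext h3 (by omega)

theorem lt_of_Rq {m k m' k' l l' : ℕ} {w : Key → ℕ} {L L' : ℕ} (hL : ∀ z ∈ AA m k l w, z < L)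
    (hL' : ∀ z ∈ AA m' k' l' w, z < L') {n : ℕ} (h : 0 < Rq m k m' k' l l' w n) :
    n < L + L' := by
  unfold Rq at h
  obtain ⟨q, hq⟩ := card_pos.1 h
  rw [mem_filter, mem_product] at hq
  have h1 := hL _ hq.1.1
  have h2 := hL' _ hq.1.2
  have h3 := hq.2
  omega

/-- windows of different parameters -/
theorem W_le_mixed {m m' j j' : ℕ} (hm' : 0 < m') (hmm : m' ≤ m) (hj : j' ≤ j) :
    W m' j' 1 ≤ W m j 1 := by
  refine le_trans ?_ (W_mono_one (m := m) (by omega) hj)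
  unfold W
  apply Nat.pow_le_pow_right (by norm_num)
  have h1 : la j' / m ≤ la j' / m' := Nat.div_le_div_left hmm hm'
  omega

/-- a side is large -/
def Big (m k l : ℕ) : Prop := 10 * m ≤ la (era l) ∧ bb 0 ≤ l ∧
  ∀ w : Key → ℕ, ∀ z ∈ AA m k l w, XA m k l ≤ z ∧ z < XA m k (l + 1)

/-- **FAR for a pair of states** -/
theorem far_pair : ∃ l0 : ℕ, ∀ m k m' k' l l' : ℕ, k + 1 < m → k' + 1 < m' → m' ≤ m →
    Big m k l → Big m' k' l' → l0 ≤ l → used m l → used m' l' → l' ≤ l →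
    200 * W m (era l) 1 ≤ l - l' →
    ∀ (M : Key → ℕ), (∀ q ∈ keysOf m k l, M q = Mk m q) →
    (∀ q ∈ keysOf m' k' l', M q = Mk m' q) →
    ∀ K : Finset Key, keysOf m k l ⊆ K → keysOf m' k' l' ⊆ K →
    PrLe M K (fun w => ∃ n, 20000 + (10 ^ 8 * l / (l - l') + 2) ^ 64 < Rq m k m' k' l l' w n)
      (Real.exp (-(l : ℝ))) := by
  obtain ⟨l0, h2⟩ := far2_pr
  obtain ⟨l1, h1⟩ := far1_pr
  refine ⟨max l0 l1, ?_⟩
  intro m k m' k' l l' hk hk' hmm hB hB' hl hu hu' hll hfar M hM hM' K hK hK'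
  obtain ⟨hb, hl0, hr⟩ := hB
  obtain ⟨hb', hl0', hr'⟩ := hB'
  have hj : era l' ≤ era l := Pool.Agent.Helper50.ET.era_mono hll
  have hWW := W_le_mixed (j := era l) (j' := era l') (show 0 < m' by omega) hmm hj
  have hWp : 0 < W m (era l) 1 := by unfold W; positivity
  have hD : l' + 200 * W m' (era l') 1 ≤ l := by omega
  have hD' := far_dist' (l := l) hb' (by omega) hD
  have hne : l ≠ l' := by omega
  have hlay := lay_real hb (by omega) hM hK
  have hlay' := lay_real hb' (by omega) hM' hK'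
  have hx : XA m k (l + 1) ≤ Nj l * BB m l :=
    XT_le_BB (Pool.Agent.Helper5.T5.TA_TB m k) hu hb (by omega)
  have hx' : XA m' k' (l' + 1) ≤ Nj l' * BB m' l' :=
    XT_le_BB (Pool.Agent.Helper5.T5.TA_TB m' k') hu' hb' (by omega)
  have hbb : bb (era l) ≤ l := (Pool.Agent.Helper27.T4.era_spec l hl0).1
  have hbb' : bb (era l') ≤ l' := (Pool.Agent.Helper27.T4.era_spec l' hl0').1
  have hN : ((Nj l * BB m l + Nj l' * BB m' l' : ℕ) : ℝ) ≤ Real.exp (100 * l) := by
    have e1 := range_size (l := l) hb (by omega) hbb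
    have e2 := range_size (l := l') hb' (by omega) hbb'
    have e3 : Real.exp (100 * l') ≤ Real.exp (100 * l) := by
      apply Real.exp_le_exp.2
      have : (l' : ℝ) ≤ l := by exact_mod_cast hll
      linarith
    rw [Nat.cast_add]
    linarith
  have hLa : ∀ w : Key → ℕ, ∀ z ∈ AA m k l w, z < Nj l * BB m l :=
    fun w z hz => (hr w z hz).2.trans_le hx
  have hLa' : ∀ w : Key → ℕ, ∀ z ∈ AA m' k' l' w, z < Nj l' * BB m' l' :=
    fun w z hz => (hr' w z hz).2.trans_le hx'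
  have hdiv := Nat.lt_mul_div_succ (10 ^ 8 * l) (show 0 < l - l' by omega)
  rw [Nat.mul_comm (l - l')] at hdiv
  by_cases h5 : l ≤ 5 * l'
  · have h3 := h2 l l' (le_trans (le_max_left _ _) hl) h5 hll (by omega) M K (hkey l 1)
      (hkey l' 1) hlay hlay' (fun f g x _ y _ => key_ne hne f g _ _) (Nj l' * BB m' l')
      (Nj l * BB m l + Nj l' * BB m' l') (10 ^ 8 * l / (l - l') + 1)
      (far_size hb' (by omega) hD) hN hdiv.le
    refine PrLe_mono (fun r _ hw => ?_) le_rfl h3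
    obtain ⟨n, hn⟩ := hw
    have e1 := Rq_le_repZ hb hb' hk hk' (hLa' (ext K r)) n (l := l) (k := k)
    have e2 := lt_of_Rq (hLa (ext K r)) (hLa' (ext K r))
      (show 0 < Rq m k m' k' l l' (ext K r) n from lt_of_le_of_lt (Nat.zero_le _) hn)
    have e3 : 10 ^ 8 * l / (l - l') + 1 + 1 = 10 ^ 8 * l / (l - l') + 2 := by
      rw [add_assoc]
    refine ⟨n, e2, ?_⟩
    rw [e3]
    exact ((Nat.le_add_left _ _).trans hn.le).trans e1
  · have hidx := one_sided_index (l := l) hb' (by omega) hbb' (by omega)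
    have hsz := one_sided_size m' l'
    set j := l' + 2 * (W m' (era l') 1 + 100) with hjdef
    have h3 := h1 l (le_trans (le_max_right _ _) hl) j hidx M K (hkey l 1) hlay
      (Nj l * BB m l + Nj l' * BB m' l') hN
    refine PrLe_mono (fun r _ hw => ?_) le_rfl h3
    obtain ⟨n, hn⟩ := hw
    have e1 := Rq_le_win (m := m) (k := k) (l := l) hb hk
      (fun z hz => (hLa' (ext K r) z hz).trans_le hsz) n
    have e2 := lt_of_Rq (hLa (ext K r)) (hLa' (ext K r))
      (show 0 < Rq m k m' k' l l' (ext K r) n from lt_of_le_of_lt (Nat.zero_le _) hn)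
    have e3 : 0 < Nj j := Nj_pos1 j
    refine ⟨n + 1 - Nj j, ?_, ((Nat.le_add_right _ _).trans_lt hn).trans_le e1⟩
    have e4 : n + 1 - Nj j ≤ n := by omega
    exact e4.trans_lt e2

end Pool.Agent.Helper97.T5
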